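import Pool.Agent.helper26.Bog.Seq
import Pool.Agent.helper64.Bog.KeyStep
import Pool.Agent.helper64.Bog.Northcott
import Pool.Agent.helper64.Bog.Tail
import Pool.Agent.helper10.BogH3

/-!
# All finite extensions of the tower have the Bogomolov property
-/

namespace Pool.Agent.helper26.Bog

open NumberField Module IntermediateField Pool.Agent.helper64.Bog Pool.Agent.helper10.BogH3

variable {Ω : Type*} [Field Ω] [CharZero Ω]

theorem normal_top [IsAlgClosed Ω] [Algebra.IsAlgebraic ℚ Ω] : Normal ℚ Ω :=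
  normal_iff.2 fun x => ⟨Algebra.IsIntegral.isIntegral x, IsAlgClosed.splits _⟩

/-- A finite normal extension containing a given finite extension and given roots of unity. -/
theorem exists_normal [IsAlgClosed Ω] [Algebra.IsAlgebraic ℚ Ω] (N : IntermediateField ℚ Ω)
    [FiniteDimensional ℚ N] {k : ℕ} (hk : 0 < k) :
    ∃ N' : IntermediateField ℚ Ω, FiniteDimensional ℚ N' ∧ Normal ℚ N' ∧ N ≤ N' ∧
      ∀ z : Ω, z ^ k = 1 → z ∈ N' := by
  classical
  have := normal_top (Ω := Ω)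
  let S : Set Ω := {z | z ^ k = 1}
  have hS : S.Finite := by
    have h1 : S ⊆ ((Polynomial.X ^ k - 1 : Polynomial Ω).roots.toFinset : Set Ω) := by
      intro z hz
      have hp0 : (Polynomial.X ^ k - 1 : Polynomial Ω) ≠ 0 :=
        (Polynomial.monic_X_pow_sub_C (1 : Ω) hk.ne').ne_zero
      simp only [Finset.mem_coe, Multiset.mem_toFinset, Polynomial.mem_roots hp0,
        Polynomial.IsRoot.def, Polynomial.eval_sub, Polynomial.eval_pow, Polynomial.eval_X,
        Polynomial.eval_one, sub_eq_zero]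
      exact hz
    exact (Finset.finite_toSet _).subset h1
  have hfd : FiniteDimensional ℚ (adjoin ℚ S) := by
    have : Finite S := hS
    exact finiteDimensional_adjoin fun x _ => Algebra.IsIntegral.isIntegral x
  let E : IntermediateField ℚ Ω := N ⊔ adjoin ℚ S
  refine ⟨normalClosure ℚ E Ω, inferInstance, normalClosure.normal ℚ E Ω,
    (le_sup_left : N ≤ E).trans (le_normalClosure E), fun z hz => ?_⟩
  exact (le_normalClosure E) ((le_sup_right : adjoin ℚ S ≤ E) (subset_adjoin ℚ S hz))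

/-- Descent. -/
theorem descent [IsAlgClosed Ω] [Algebra.IsAlgebraic ℚ Ω] {F : ℕ → IntermediateField ℚ Ω}
    {α : ℕ → Ω} {b : ℕ → ℕ} {s : ℕ → Ω} (hrank : ∀ m, finrank ℚ (F m) = 3 ^ m)
    (hF : ∀ m, F (m + 1) = F m ⊔ ℚ⟮α m + (α m)⁻¹⟯) (hram : ∀ m, Ram (m + 1) (α m))
    (htr : ∀ m, α m ^ 3 + (α m ^ 3)⁻¹ ∈ F m)
    (hsk : ∀ m, ∀ A : IntermediateField ℚ Ω, F m ≤ A → α m ^ 3 ∈ A → s (b m) ∈ A)
    (hs2 : ∀ c n, s c ^ 2 ∈ F n) (hss : ∀ c d, c ≠ d → ∀ n, s c * s d ∉ F n)
    (hb : ∀ B, ∃ m₀, ∀ m ≥ m₀, B ≤ b m)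
    (N : IntermediateField ℚ Ω) [FiniteDimensional ℚ N] [Normal ℚ N] :
    ∃ m₀, ∃ c : ℝ, 0 < c ∧ ∀ m ≥ m₀, ∀ β ∈ N ⊔ F m, absLogHeight₁ β < c → β ∈ N ⊔ F m₀ := by
  have hκ : 0 < finrank ℚ N := finrank_pos
  obtain ⟨N', hfd', hnorm', hNN', hμ⟩ := exists_normal N
    (k := 3 ^ (3 * finrank ℚ N)) (by positivity)
  have hmono : Monotone F := monotone_nat_of_le_succ fun m => by
    rw [hF]
    exact le_sup_left
  have hω : ∀ z : Ω, z ^ 3 = 1 → z ∈ N' := by
    intro z hz
    apply hμ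
    obtain ⟨j, hj⟩ : ∃ j, 3 * finrank ℚ N = j + 1 := ⟨3 * finrank ℚ N - 1, by omega⟩
    rw [hj, pow_succ', pow_mul, hz, one_pow]
  have hufs : ∀ m, α m + (α m)⁻¹ ∈ F (m + 1) := by
    intro m
    rw [hF]
    exact (le_sup_right : ℚ⟮α m + (α m)⁻¹⟯ ≤ _) (mem_adjoin_simple_self ℚ _)
  have hunot : ∀ m, α m + (α m)⁻¹ ∉ F m := by
    intro m hmem
    have h1 : F (m + 1) = F m := by
      rw [hF, sup_eq_left, adjoin_simple_le_iff]
      exact hmem
    have h2 := hrank (m + 1)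
    rw [h1, hrank m] at h2
    have h3 := Nat.pow_right_injective (le_refl 2 |>.trans (by norm_num : 2 ≤ 3)) h2
    omega
  obtain ⟨m₁, hm₁⟩ := eventually_not_mem N' F hmono (fun m => α m + (α m)⁻¹) hufs hunot
  obtain ⟨B, hB⟩ := (finite_quadratic N' F hmono s hss hs2).bddAbove
  obtain ⟨m₂, hm₂⟩ := hb (B + 1)
  let m₀ := max m₁ m₂
  refine ⟨m₀, 1 / (2 * finrank ℚ N * 3 ^ (3 * finrank ℚ N)), by positivity, ?_⟩
  intro m hm
  induction m, hm using Nat.le_induction with
  | base => exact fun β hβ _ => hβ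
  | succ m hm ih =>
    intro β hβ hh
    refine ih β ?_ hh
    have hfdF : FiniteDimensional ℚ (F m) :=
      FiniteDimensional.of_finrank_pos (by rw [hrank]; positivity)
    have h1 : α m ^ 3 ∉ N' ⊔ F m := by
      intro hmem
      have h2 : b m ∈ {b : ℕ | ∃ n, s b ∈ N' ⊔ F n} := ⟨m, hsk m _ le_sup_right hmem⟩
      have h4 := hB h2
      have h5 := hm₂ m ((le_max_right _ _).trans hm)
      omega
    have hα0 : α m ≠ 0 := ram_ne_zero (hram m) (Algebra.IsIntegral.isIntegral _)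
    have h3 : α m ∉ (N' ⊔ F m) ⊔ ℚ⟮α m ^ 3⟯ := by
      intro hmem
      refine hm₁ m ((le_max_left _ _).trans hm) ?_
      refine mem_of_mem_adjoin hω hα0 (htr m) ?_ h1 hmem
      rw [← hF, hrank, hrank, pow_succ']
    refine key_step hNN' hμ (hrank m) (hram m) (htr m) h1 h3 ?_ hh
    rw [← hF]
    exact hβ

/-- The Bogomolov property of a set of algebraic numbers. -/
def Bogo (S : Set Ω) : Prop :=
  ∃ c : ℝ, 0 < c ∧ ∀ x ∈ S, x ≠ 0 → (∀ n : ℕ, 0 < n → x ^ n ≠ 1) → c ≤ absLogHeight₁ x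

theorem main [IsAlgClosed Ω] [Algebra.IsAlgebraic ℚ Ω] (K : IntermediateField ℚ Ω)
    [FiniteDimensional ℚ K] :
    ∃ F : IntermediateField ℚ Ω, K ≤ F ∧
      (∀ L : IntermediateField F Ω, FiniteDimensional F L → Bogo (L : Set Ω)) ∧
      ∀ d : ℕ, 2 ≤ d → ¬ Bogo ((⨆ L ∈ {L : IntermediateField F Ω |
        FiniteDimensional F L ∧ finrank F L ≤ d}, L : IntermediateField F Ω) : Set Ω) := by
  classical
  obtain ⟨F, α, b, s, hrank, hF, hram, htr, hsk, hs2, hss, hb, hε⟩ := exists_tower Ω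
  have hmono : Monotone F := monotone_nat_of_le_succ fun m => by
    rw [hF]
    exact le_sup_left
  let F' : IntermediateField ℚ Ω := (⨆ m, F m) ⊔ K
  have hint : ∀ y : Ω, IsIntegral ℚ y := fun y => Algebra.IsIntegral.isIntegral y
  refine ⟨F', le_sup_right, ?_, ?_⟩
  · intro L hL
    -- generators of `L`
    obtain ⟨S, hS⟩ := (IntermediateField.essFiniteType_iff.1 inferInstance : L.FG)
    have hfdS : FiniteDimensional ℚ (adjoin ℚ (S : Set Ω)) :=
      finiteDimensional_adjoin fun x _ => hint x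
    let E : IntermediateField ℚ Ω := K ⊔ adjoin ℚ (S : Set Ω)
    have hfdE : FiniteDimensional ℚ E := inferInstance
    obtain ⟨N, hfdN, hnormN, hEN, -⟩ := exists_normal E (k := 1) one_pos
    have hLN : ∀ x ∈ L, x ∈ N ⊔ ⨆ m, F m := by
      intro x hx
      have h1 : L.restrictScalars ℚ = F' ⊔ adjoin ℚ (S : Set Ω) := by
        rw [← hS]
        exact restrictScalars_adjoin_eq_sup ℚ F' (S : Set Ω)
      have h2 : x ∈ L.restrictScalars ℚ := hx
      rw [h1] at h2
      refine (sup_le (sup_le le_sup_right ?_) ?_ : F' ⊔ adjoin ℚ (S : Set Ω) ≤ N ⊔ ⨆ m, F m) h2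
      · exact ((le_sup_left : K ≤ E).trans hEN).trans le_sup_left
      · exact ((le_sup_right : adjoin ℚ (S : Set Ω) ≤ E).trans hEN).trans le_sup_left
    obtain ⟨m₀, c₁, hc₁, hdesc⟩ := descent hrank hF hram htr hsk hs2 hss hb N
    have hfdF : FiniteDimensional ℚ (F m₀) :=
      FiniteDimensional.of_finrank_pos (by rw [hrank]; positivity)
    obtain ⟨c₂, hc₂, hN⟩ := number_field_bogomolov (N ⊔ F m₀)
    refine ⟨min c₁ c₂, lt_min hc₁ hc₂, fun x hx hx0 htors => ?_⟩
    by_contra hcon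
    push Not at hcon
    have hdir : Directed (· ≤ ·) fun m => N ⊔ F m := by
      intro i j
      exact ⟨max i j, sup_le_sup_left (hmono (le_max_left _ _)) N,
        sup_le_sup_left (hmono (le_max_right _ _)) N⟩
    have h3 : x ∈ ⨆ m, (N ⊔ F m) := by
      have h4 : N ⊔ ⨆ m, F m ≤ ⨆ m, (N ⊔ F m) := by
        refine sup_le (le_sup_left.trans (le_iSup (fun m => N ⊔ F m) 0)) (iSup_le fun m => ?_)
        exact le_sup_right.trans (le_iSup (fun m => N ⊔ F m) m)
      exact h4 (hLN x hx)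
    rw [← SetLike.mem_coe, coe_iSup_of_directed hdir, Set.mem_iUnion] at h3
    obtain ⟨m, hm⟩ := h3
    have h5 : x ∈ N ⊔ F (max m m₀) := sup_le_sup_left (hmono (le_max_left _ _)) N hm
    have h6 := hdesc (max m m₀) (le_max_right _ _) x h5 (hcon.trans_le (min_le_left _ _))
    exact absurd (hcon.trans_le (min_le_right _ _)) (not_lt.2 (hN x h6 hx0 htors))
  · intro d hd ⟨c, hc, h⟩
    obtain ⟨m, hm⟩ := hε c hc
    refine absurd hm (not_lt.2 (h (α m) ?_ (ram_ne_zero (hram m) (hint _))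
      fun n hn => ram_pow_ne_one (hram m) (hint _) hn.ne'))
    have hα0 : α m ≠ 0 := ram_ne_zero (hram m) (hint _)
    have hu : α m + (α m)⁻¹ ∈ F' := by
      have h1 : α m + (α m)⁻¹ ∈ F (m + 1) := by
        rw [hF]
        exact (le_sup_right : ℚ⟮α m + (α m)⁻¹⟯ ≤ _) (mem_adjoin_simple_self ℚ _)
      exact ((le_iSup F (m + 1)).trans le_sup_left) h1
    have hintF : IsIntegral F' (α m) := (hint (α m)).tower_top
    have hfd : FiniteDimensional F' F'⟮α m⟯ := adjoin.finiteDimensional hintF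
    have hdeg : finrank F' F'⟮α m⟯ ≤ 2 := by
      rw [adjoin.finrank hintF]
      let p : Polynomial F' := Polynomial.X ^ 2 - Polynomial.C ⟨_, hu⟩ * Polynomial.X + 1
      have hp : p.natDegree = 2 := by
        simp only [p]
        compute_degree!
      have hp0 : p ≠ 0 := by
        intro h
        rw [h] at hp
        simp at hp
      have hpu : Polynomial.aeval (α m) p = 0 := by
        have h4 : algebraMap F' Ω ⟨_, hu⟩ = α m + (α m)⁻¹ := rfl
        simp only [p, map_sub, map_mul, map_pow, map_add, map_one, Polynomial.aeval_X,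
          Polynomial.aeval_C, h4]
        field_simp
        ring
      have := Polynomial.natDegree_le_of_dvd (minpoly.dvd F' (α m) hpu) hp0
      rwa [hp] at this
    have h1 : F'⟮α m⟯ ≤ ⨆ L ∈ {L : IntermediateField F' Ω |
        FiniteDimensional F' L ∧ finrank F' L ≤ d}, L :=
      le_iSup₂_of_le F'⟮α m⟯ ⟨hfd, hdeg.trans hd⟩ le_rfl
    exact h1 (mem_adjoin_simple_self F' (α m))

end Pool.Agent.helper26.Bog
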