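import Pool.Agent.helper26.Bog.Tower

/-!
# The tower of fields
-/

namespace Pool.Agent.helper26.Bog

open NumberField Module IntermediateField Pool.Agent.helper64.Bog

theorem infinite_primes : (Set.ofPred fun p : ℕ => p.Prime ∧ p ≡ 1 [MOD 9]).Infinite :=
  Nat.infinite_setOfPred_prime_modEq_one (by norm_num)

/-- The `b`-th prime congruent to one modulo nine. -/
noncomputable def prm (b : ℕ) : ℕ := Nat.nth (fun p : ℕ => p.Prime ∧ p ≡ 1 [MOD 9]) b

theorem prm_prime (b : ℕ) : (prm b).Prime := (Nat.nth_mem_of_infinite infinite_primes b).1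

theorem prm_mod (b : ℕ) : prm b % 9 = 1 := (Nat.nth_mem_of_infinite infinite_primes b).2

theorem prm_injective : Function.Injective prm := Nat.nth_injective infinite_primes

variable (Ω : Type*) [Field Ω] [CharZero Ω] [IsAlgClosed Ω]

/-- A square root of `prm b`. -/
noncomputable def srt (b : ℕ) : Ω :=
  (IsAlgClosed.exists_pow_nat_eq (prm b : Ω) (n := 2) (by norm_num)).choose

omit [CharZero Ω] in
theorem srt_sq (b : ℕ) : srt Ω b ^ 2 = prm b :=
  (IsAlgClosed.exists_pow_nat_eq (prm b : Ω) (n := 2) (by norm_num)).choose_spec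

variable {Ω}

/-- A cube root. -/
noncomputable def cbrt (t : Ω) : Ω :=
  (IsAlgClosed.exists_pow_nat_eq t (n := 3) (by norm_num)).choose

omit [CharZero Ω] in
theorem cbrt_pow (t : Ω) : cbrt t ^ 3 = t :=
  (IsAlgClosed.exists_pow_nat_eq t (n := 3) (by norm_num)).choose_spec

/-- States of the construction. -/
structure St (Ω : Type*) [Field Ω] [CharZero Ω] where
  /-- The current field. -/
  F : IntermediateField ℚ Ω
  /-- The index of the current block. -/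
  b : ℕ
  /-- The current element. -/
  t : Ω

open Classical in
/-- One step. -/
noncomputable def St.next (x : St Ω) : St Ω :=
  if absLogHeight₁ (cbrt x.t) < 1 / (x.b + 1) then
    ⟨x.F ⊔ ℚ⟮cbrt x.t + (cbrt x.t)⁻¹⟯, x.b + 1,
      ((cbrt x.t + (cbrt x.t)⁻¹)⁻¹ - 1 + srt Ω (x.b + 1)) /
        ((cbrt x.t + (cbrt x.t)⁻¹)⁻¹ - 1 - srt Ω (x.b + 1))⟩
  else ⟨x.F ⊔ ℚ⟮cbrt x.t + (cbrt x.t)⁻¹⟯, x.b, cbrt x.t⟩

/-- The invariant. -/
structure Inv (m : ℕ) (x : St Ω) : Prop where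
  rank : finrank ℚ x.F = 3 ^ m
  ram : Ram m x.t
  tr : x.t + x.t⁻¹ ∈ x.F
  sk : ∃ V ∈ x.F, x.t - x.t⁻¹ = V * srt Ω x.b

theorem St.next_F (x : St Ω) : x.next.F = x.F ⊔ ℚ⟮cbrt x.t + (cbrt x.t)⁻¹⟯ := by
  unfold St.next
  split_ifs <;> rfl

theorem ram_cbrt {m : ℕ} {t : Ω} (h : Ram m t) : Ram (m + 1) (cbrt t) := by
  obtain ⟨M₀, hfd, h⟩ := h
  refine ⟨M₀, hfd, ?_⟩
  intro M hM w hw h3 ht
  have h1 : t ∈ M := by
    rw [← cbrt_pow t]
    exact pow_mem ht 3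
  have h2 := h M hM w hw h3 h1
  have h4 : (⟨t, h1⟩ : M) = ⟨cbrt t, ht⟩ ^ 3 := Subtype.ext (by simpa using (cbrt_pow t).symm)
  rw [h4, map_pow, ← pow_mul, ← pow_succ'] at h2
  exact h2

omit [IsAlgClosed Ω] in
theorem skew_block {F : IntermediateField ℚ Ω} {a s : Ω} {D : ℕ} (ha : a ∈ F) (hs : s ^ 2 = D)
    (h1 : a + s ≠ 0) (h2 : a - s ≠ 0) :
    (a + s) / (a - s) + ((a + s) / (a - s))⁻¹ ∈ F ∧
      ∃ V ∈ F, (a + s) / (a - s) - ((a + s) / (a - s))⁻¹ = V * s := by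
  have hD : (D : Ω) ∈ F := by exact_mod_cast F.algebraMap_mem (D : ℚ)
  have h3 : a ^ 2 - D ≠ 0 := by
    have : a ^ 2 - D = (a + s) * (a - s) := by rw [← hs]; ring
    rw [this]
    exact mul_ne_zero h1 h2
  constructor
  · have : (a + s) / (a - s) + ((a + s) / (a - s))⁻¹ = (2 * a ^ 2 + 2 * D) / (a ^ 2 - D) := by
      rw [inv_div]
      field_simp
      rw [← hs]
      ring
    rw [this]
    have h2F : (2 : Ω) ∈ F := by simp
    exact div_mem (add_mem (mul_mem h2F (pow_mem ha 2)) (mul_mem h2F hD))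
      (sub_mem (pow_mem ha 2) hD)
  · refine ⟨4 * a / (a ^ 2 - D), ?_, ?_⟩
    · have h4F : (4 : Ω) ∈ F := by simp
      exact div_mem (mul_mem h4F ha) (sub_mem (pow_mem ha 2) hD)
    · rw [inv_div]
      field_simp
      rw [← hs]
      ring

theorem Inv.next [Algebra.IsAlgebraic ℚ Ω] {m : ℕ} {x : St Ω} (h : Inv m x) :
    Inv (m + 1) x.next := by
  have hα : Ram (m + 1) (cbrt x.t) := ram_cbrt h.ram
  have hint : ∀ y : Ω, IsIntegral ℚ y := fun y => Algebra.IsIntegral.isIntegral y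
  have h0 : cbrt x.t ≠ 0 := ram_ne_zero hα (hint _)
  have hrank : finrank ℚ x.next.F = 3 ^ (m + 1) := by
    rw [St.next_F]
    exact tower_step h.rank hα (hint _) (by rw [cbrt_pow]; exact h.tr)
  by_cases hlt : absLogHeight₁ (cbrt x.t) < 1 / (x.b + 1)
  · have e : x.next = ⟨x.F ⊔ ℚ⟮cbrt x.t + (cbrt x.t)⁻¹⟯, x.b + 1,
      ((cbrt x.t + (cbrt x.t)⁻¹)⁻¹ - 1 + srt Ω (x.b + 1)) /
        ((cbrt x.t + (cbrt x.t)⁻¹)⁻¹ - 1 - srt Ω (x.b + 1))⟩ := by
      unfold St.next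
      rw [if_pos hlt]
    have hram : Ram (m + 1) x.next.t := by
      rw [e]
      exact (ram_unif hα (hint _)).ram (prm_mod _) (srt_sq Ω _) (hint _)
    have hne := ram_ne_zero hram (hint _)
    have hu : (cbrt x.t + (cbrt x.t)⁻¹)⁻¹ - 1 ∈ x.F ⊔ ℚ⟮cbrt x.t + (cbrt x.t)⁻¹⟯ :=
      sub_mem (inv_mem ((le_sup_right : ℚ⟮cbrt x.t + (cbrt x.t)⁻¹⟯ ≤ _)
        (mem_adjoin_simple_self ℚ _))) (one_mem _)
    rw [e] at hne hram hrank ⊢
    have h1 : ((cbrt x.t + (cbrt x.t)⁻¹)⁻¹ - 1 + srt Ω (x.b + 1)) ≠ 0 := by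
      intro h0
      apply hne
      change ((cbrt x.t + (cbrt x.t)⁻¹)⁻¹ - 1 + srt Ω (x.b + 1)) / _ = 0
      rw [h0, zero_div]
    have h2 : ((cbrt x.t + (cbrt x.t)⁻¹)⁻¹ - 1 - srt Ω (x.b + 1)) ≠ 0 := by
      intro h0
      apply hne
      change _ / ((cbrt x.t + (cbrt x.t)⁻¹)⁻¹ - 1 - srt Ω (x.b + 1)) = 0
      rw [h0, div_zero]
    obtain ⟨hA, hB⟩ := skew_block hu (srt_sq Ω (x.b + 1)) h1 h2
    exact ⟨hrank, hram, hA, hB⟩
  · have e : x.next = ⟨x.F ⊔ ℚ⟮cbrt x.t + (cbrt x.t)⁻¹⟯, x.b, cbrt x.t⟩ := by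
      unfold St.next
      rw [if_neg hlt]
    rw [e] at hrank ⊢
    have hu : cbrt x.t + (cbrt x.t)⁻¹ ∈ x.F ⊔ ℚ⟮cbrt x.t + (cbrt x.t)⁻¹⟯ :=
      (le_sup_right : ℚ⟮cbrt x.t + (cbrt x.t)⁻¹⟯ ≤ _) (mem_adjoin_simple_self ℚ _)
    refine ⟨hrank, hα, hu, ?_⟩
    obtain ⟨V, hV, hVs⟩ := h.sk
    have e2 : (cbrt x.t - (cbrt x.t)⁻¹) * ((cbrt x.t + (cbrt x.t)⁻¹) ^ 2 - 1) =
        x.t - x.t⁻¹ := by
      conv_rhs => rw [← cbrt_pow x.t]
      field_simp
      ring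
    have hne : x.t - x.t⁻¹ ≠ 0 := by
      intro h4
      have h5 : x.t ^ 2 = 1 := by
        have h6 := ram_ne_zero h.ram (hint _)
        have h7 : x.t ^ 2 - 1 = (x.t - x.t⁻¹) * x.t := by field_simp
        rw [h4, zero_mul] at h7
        exact sub_eq_zero.1 h7
      exact ram_pow_ne_one h.ram (hint _) (n := 2) (by norm_num) h5
    have hne2 : (cbrt x.t + (cbrt x.t)⁻¹) ^ 2 - 1 ≠ 0 := by
      intro h4
      rw [h4, mul_zero] at e2
      exact hne e2.symm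
    refine ⟨V / ((cbrt x.t + (cbrt x.t)⁻¹) ^ 2 - 1), ?_, ?_⟩
    · exact div_mem ((le_sup_left : x.F ≤ x.F ⊔ ℚ⟮cbrt x.t + (cbrt x.t)⁻¹⟯) hV)
        (sub_mem (pow_mem hu 2) (one_mem _))
    · change cbrt x.t - (cbrt x.t)⁻¹ = V / ((cbrt x.t + (cbrt x.t)⁻¹) ^ 2 - 1) * srt Ω x.b
      rw [div_mul_eq_mul_div, eq_div_iff hne2, e2, hVs]

omit [IsAlgClosed Ω] in
theorem unif_three : Unif 0 (3 : Ω) := by
  refine ⟨⊥, inferInstance, ?_⟩
  intro M _ w _ _ ht
  rw [pow_zero, pow_one]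
  rfl

variable (Ω) in
/-- The initial state. -/
noncomputable def St.init : St Ω := ⟨⊥, 0, (3 - 1 + srt Ω 0) / (3 - 1 - srt Ω 0)⟩

theorem inv_init [Algebra.IsAlgebraic ℚ Ω] : Inv 0 (St.init Ω) := by
  have hint : ∀ y : Ω, IsIntegral ℚ y := fun y => Algebra.IsIntegral.isIntegral y
  have hram : Ram 0 ((3 - 1 + srt Ω 0) / (3 - 1 - srt Ω 0)) :=
    unif_three.ram (prm_mod _) (srt_sq Ω _) (hint _)
  have hne := ram_ne_zero hram (hint _)
  have h1 : (3 - 1 + srt Ω 0) ≠ 0 := by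
    intro h0
    apply hne
    rw [h0, zero_div]
  have h2 : (3 - 1 - srt Ω 0) ≠ 0 := by
    intro h0
    apply hne
    rw [h0, div_zero]
  have ha : (3 - 1 : Ω) ∈ (⊥ : IntermediateField ℚ Ω) := sub_mem (by simp) (one_mem _)
  obtain ⟨hA, hB⟩ := skew_block ha (srt_sq Ω 0) h1 h2
  exact ⟨by rw [pow_zero]; exact IntermediateField.finrank_bot, hram, hA, hB⟩

variable (Ω) in
/-- The sequence of states. -/
noncomputable def seq (m : ℕ) : St Ω := St.next^[m] (St.init Ω)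

theorem seq_succ (m : ℕ) : seq Ω (m + 1) = (seq Ω m).next := Function.iterate_succ_apply' _ _ _

theorem inv_seq [Algebra.IsAlgebraic ℚ Ω] (m : ℕ) : Inv m (seq Ω m) := by
  induction m with
  | zero => exact inv_init
  | succ m ih =>
    rw [seq_succ]
    exact ih.next

theorem b_next_of_lt {x : St Ω} (h : absLogHeight₁ (cbrt x.t) < 1 / (x.b + 1)) :
    x.next.b = x.b + 1 := by
  unfold St.next
  rw [if_pos h]

theorem b_next_of_not_lt {x : St Ω} (h : ¬ absLogHeight₁ (cbrt x.t) < 1 / (x.b + 1)) :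
    x.next.b = x.b ∧ x.next.t = cbrt x.t := by
  unfold St.next
  rw [if_neg h]
  exact ⟨rfl, rfl⟩

theorem b_mono : Monotone fun m => (seq Ω m).b := by
  refine monotone_nat_of_le_succ fun m => ?_
  rw [seq_succ]
  by_cases h : absLogHeight₁ (cbrt (seq Ω m).t) < 1 / ((seq Ω m).b + 1)
  · rw [b_next_of_lt h]
    exact Nat.le_succ _
  · rw [(b_next_of_not_lt h).1]

theorem height_cbrt [Algebra.IsAlgebraic ℚ Ω] (t : Ω) :
    absLogHeight₁ (cbrt t) = absLogHeight₁ t / 3 := by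
  have hint : ∀ y : Ω, IsIntegral ℚ y := fun y => Algebra.IsIntegral.isIntegral y
  have h := absLogHeight₁_pow (hint (cbrt t)) 3
  rw [cbrt_pow] at h
  rw [h]
  push_cast
  ring

/-- Every block ends. -/
theorem exists_block_end [Algebra.IsAlgebraic ℚ Ω] (m : ℕ) :
    ∃ m' ≥ m, absLogHeight₁ (cbrt (seq Ω m').t) < 1 / ((seq Ω m').b + 1) := by
  by_contra hcon
  push Not at hcon
  have h1 : ∀ j, (seq Ω (m + j)).b = (seq Ω m).b ∧
      absLogHeight₁ (seq Ω (m + j)).t = absLogHeight₁ (seq Ω m).t / 3 ^ j := by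
    intro j
    induction j with
    | zero => simp
    | succ j ih =>
      have h2 := b_next_of_not_lt (x := seq Ω (m + j)) (not_lt.2 (hcon (m + j) (by omega)))
      rw [← seq_succ] at h2
      rw [← add_assoc, h2.1, h2.2]
      refine ⟨ih.1, ?_⟩
      rw [height_cbrt, ih.2, pow_succ]
      field_simp
  have hb : (0 : ℝ) < 1 / ((seq Ω m).b + 1) := by positivity
  have h0 := absLogHeight₁_nonneg (seq Ω m).t
  obtain ⟨j, hj⟩ : ∃ j : ℕ, absLogHeight₁ (seq Ω m).t * (1 / 3) ^ j < 1 / ((seq Ω m).b + 1) := by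
    have h2 : Filter.Tendsto (fun j : ℕ => absLogHeight₁ (seq Ω m).t * (1 / 3 : ℝ) ^ j)
        Filter.atTop (nhds (absLogHeight₁ (seq Ω m).t * 0)) :=
      (tendsto_pow_atTop_nhds_zero_of_lt_one (by norm_num) (by norm_num)).const_mul _
    rw [mul_zero] at h2
    exact (h2.eventually_lt_const hb).exists
  have h3 := hcon (m + j) (by omega)
  rw [height_cbrt, (h1 j).1, (h1 j).2] at h3
  have h4 : absLogHeight₁ (seq Ω m).t / 3 ^ j / 3 ≤ absLogHeight₁ (seq Ω m).t * (1 / 3) ^ j := by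
    rw [one_div, inv_pow, ← div_eq_mul_inv]
    apply div_le_self (by positivity) (by norm_num)
  linarith

theorem b_unbounded [Algebra.IsAlgebraic ℚ Ω] (B : ℕ) : ∃ m₀, ∀ m ≥ m₀, B ≤ (seq Ω m).b := by
  induction B with
  | zero => exact ⟨0, fun _ _ => Nat.zero_le _⟩
  | succ B ih =>
    obtain ⟨m₀, h⟩ := ih
    obtain ⟨m', hm', h2⟩ := exists_block_end (Ω := Ω) m₀
    refine ⟨m' + 1, fun m hm => ?_⟩
    have h3 := b_next_of_lt h2
    rw [← seq_succ] at h3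
    have h4 : (seq Ω (m' + 1)).b ≤ (seq Ω m).b := b_mono hm
    have h5 := h m' hm'
    omega

theorem exists_small [Algebra.IsAlgebraic ℚ Ω] {ε : ℝ} (hε : 0 < ε) :
    ∃ m, absLogHeight₁ (cbrt (seq Ω m).t) < ε := by
  obtain ⟨B, hB⟩ := exists_nat_one_div_lt hε
  obtain ⟨m₀, h⟩ := b_unbounded (Ω := Ω) B
  obtain ⟨m', hm', h2⟩ := exists_block_end (Ω := Ω) m₀
  refine ⟨m', h2.trans_le (le_trans ?_ hB.le)⟩
  have h5 := h m' hm'
  have h6 : (B : ℝ) ≤ (seq Ω m').b := by exact_mod_cast h5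
  gcongr

theorem srt_mul_not_mem {F : IntermediateField ℚ Ω} {m : ℕ} (hF : finrank ℚ F = 3 ^ m) {b c : ℕ}
    (hbc : b ≠ c) : srt Ω b * srt Ω c ∉ F := by
  intro hmem
  have hfd : FiniteDimensional ℚ F := FiniteDimensional.of_finrank_pos (by rw [hF]; positivity)
  set y : Ω := srt Ω b * srt Ω c with hy
  have hy2 : y ^ 2 = ((prm b * prm c : ℕ) : Ω) := by
    rw [hy, mul_pow, srt_sq, srt_sq]
    push_cast
    ring
  have hirr : ∀ q : ℚ, (q : Ω) ≠ y := by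
    intro q hq
    have h1 : q ^ 2 = ((prm b * prm c : ℕ) : ℚ) := by
      have : ((q ^ 2 : ℚ) : Ω) = (((prm b * prm c : ℕ) : ℚ) : Ω) := by
        push_cast
        rw [hq, hy2]
        push_cast
        ring
      exact_mod_cast this
    have h2 : IsSquare ((prm b * prm c : ℕ) : ℚ) := ⟨q, by rw [← h1]; ring⟩
    rw [Rat.isSquare_natCast_iff] at h2
    obtain ⟨r, hr⟩ := h2
    have hpb := prm_prime b
    have hpc := prm_prime c
    have h3 : prm b ∣ r := by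
      have : prm b ∣ r * r := by rw [← hr]; exact dvd_mul_right _ _
      exact (hpb.dvd_mul.1 this).elim id id
    obtain ⟨k, rfl⟩ := h3
    have h4 : prm c = k * (prm b * k) := by
      apply Nat.eq_of_mul_eq_mul_left hpb.pos
      rw [hr]
      ring
    have h5 : prm b ∣ prm c := by
      rw [h4]
      exact Dvd.intro_left (k * k) (by ring)
    have h6 := (Nat.prime_dvd_prime_iff_eq hpb hpc).1 h5
    exact hbc (prm_injective h6)
  -- the degree of `ℚ(y)` is two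
  have hle : ℚ⟮y⟯ ≤ F := adjoin_simple_le_iff.2 hmem
  have hint : IsIntegral ℚ y := by
    refine IsIntegral.of_pow (n := 2) (by norm_num) ?_
    rw [hy2]
    exact_mod_cast (isIntegral_algebraMap (R := ℚ) (A := Ω) (x := ((prm b * prm c : ℕ) : ℚ)))
  have hdeg : finrank ℚ ℚ⟮y⟯ = 2 := by
    rw [adjoin.finrank hint]
    apply le_antisymm
    · let p : Polynomial ℚ := Polynomial.X ^ 2 - Polynomial.C ((prm b * prm c : ℕ) : ℚ)
      have hp : p.natDegree = 2 := Polynomial.natDegree_X_pow_sub_C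
      have hp0 : p ≠ 0 := by
        intro h
        rw [h] at hp
        simp at hp
      have hpu : Polynomial.aeval y p = 0 := by
        simp only [p, map_sub, map_pow, Polynomial.aeval_X, Polynomial.aeval_C]
        rw [hy2]
        simp
      have := Polynomial.natDegree_le_of_dvd (minpoly.dvd ℚ y hpu) hp0
      rwa [hp] at this
    · rw [minpoly.two_le_natDegree_iff hint]
      rintro ⟨q, hq⟩
      exact hirr q hq
  have h2 : finrank ℚ ℚ⟮y⟯ ∣ finrank ℚ F := by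
    have := finrank_bot_mul_relfinrank hle
    exact Dvd.intro _ this
  rw [hdeg, hF] at h2
  have h3 := (Nat.prime_two.dvd_of_dvd_pow h2)
  norm_num at h3

variable (Ω) in
/-- The tower. -/
theorem exists_tower [Algebra.IsAlgebraic ℚ Ω] :
    ∃ (F : ℕ → IntermediateField ℚ Ω) (α : ℕ → Ω) (b : ℕ → ℕ) (s : ℕ → Ω),
      (∀ m, finrank ℚ (F m) = 3 ^ m) ∧
      (∀ m, F (m + 1) = F m ⊔ ℚ⟮α m + (α m)⁻¹⟯) ∧
      (∀ m, Ram (m + 1) (α m)) ∧
      (∀ m, α m ^ 3 + (α m ^ 3)⁻¹ ∈ F m) ∧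
      (∀ m, ∀ A : IntermediateField ℚ Ω, F m ≤ A → α m ^ 3 ∈ A → s (b m) ∈ A) ∧
      (∀ c n, s c ^ 2 ∈ F n) ∧
      (∀ c d, c ≠ d → ∀ n, s c * s d ∉ F n) ∧
      (∀ B, ∃ m₀, ∀ m ≥ m₀, B ≤ b m) ∧
      (∀ ε : ℝ, 0 < ε → ∃ m, absLogHeight₁ (α m) < ε) := by
  have hint : ∀ y : Ω, IsIntegral ℚ y := fun y => Algebra.IsIntegral.isIntegral y
  refine ⟨fun m => (seq Ω m).F, fun m => cbrt (seq Ω m).t, fun m => (seq Ω m).b, srt Ω,
    fun m => (inv_seq m).rank, fun m => ?_, fun m => ram_cbrt (inv_seq m).ram, fun m => ?_,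
    fun m A hA hmem => ?_, fun c n => ?_, fun c d hcd n => srt_mul_not_mem (inv_seq n).rank hcd,
    b_unbounded, fun ε hε => exists_small hε⟩
  · change (seq Ω (m + 1)).F = _
    rw [seq_succ, St.next_F]
  · change cbrt (seq Ω m).t ^ 3 + (cbrt (seq Ω m).t ^ 3)⁻¹ ∈ _
    rw [cbrt_pow]
    exact (inv_seq m).tr
  · change cbrt (seq Ω m).t ^ 3 ∈ A at hmem
    rw [cbrt_pow] at hmem
    obtain ⟨V, hV, hVs⟩ := (inv_seq (Ω := Ω) m).sk
    have hne : (seq Ω m).t - (seq Ω m).t⁻¹ ≠ 0 := by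
      intro h4
      have h6 := ram_ne_zero (inv_seq (Ω := Ω) m).ram (hint _)
      have h5 : (seq Ω m).t ^ 2 = 1 := by
        have h7 : (seq Ω m).t ^ 2 - 1 = ((seq Ω m).t - (seq Ω m).t⁻¹) * (seq Ω m).t := by
          field_simp
        rw [h4, zero_mul] at h7
        exact sub_eq_zero.1 h7
      exact ram_pow_ne_one (inv_seq (Ω := Ω) m).ram (hint _) (n := 2) (by norm_num) h5
    have hV0 : V ≠ 0 := by
      rintro rfl
      rw [zero_mul] at hVs
      exact hne hVs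
    have : srt Ω (seq Ω m).b = ((seq Ω m).t - (seq Ω m).t⁻¹) / V := by
      rw [hVs]
      field_simp
    change srt Ω (seq Ω m).b ∈ A
    rw [this]
    exact div_mem (sub_mem hmem (inv_mem hmem)) (hA hV)
  · rw [srt_sq]
    simp

end Pool.Agent.helper26.Bog
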