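import Pool.Agent.helper64.Bog.ProdIneq
import Pool.Agent.helper64.Bog.Local
import Pool.Agent.helper64.Bog.RamDef

/-!
# Totally ramified towers of cubic Kummer type
-/

namespace Pool.Agent.helper26.Bog

open NumberField Module IntermediateField Pool.Agent.helper64.Bog

variable {Ω : Type*} [Field Ω] [CharZero Ω]

/-- `Unif k t` : for all sufficiently large number fields `M` containing `t` and all nonarchimedean
absolute values `w` on `M` with `w 3 < 1`, `w t ^ (3 ^ k) = w 3`. -/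
def Unif (k : ℕ) (t : Ω) : Prop :=
  ∃ M₀ : IntermediateField ℚ Ω, FiniteDimensional ℚ M₀ ∧ ∀ M : IntermediateField ℚ Ω, M₀ ≤ M →
    ∀ w : AbsoluteValue M ℝ, IsNonarchimedean w → w 3 < 1 →
      ∀ ht : t ∈ M, w ⟨t, ht⟩ ^ 3 ^ k = w 3

theorem exists_place (M : Type*) [Field M] [NumberField M] :
    ∃ w : AbsoluteValue M ℝ, IsNonarchimedean w ∧ w 3 < 1 := by
  by_contra hcon
  push Not at hcon
  have h := prod_three (M := M)
  have h1 : ∀ w : FinitePlace M, w (3 : M) = 1 := by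
    intro w
    have h2 : (1 : ℝ) ≤ w (3 : M) := hcon w.1 (fun x y => FinitePlace.add_le w x y)
    have h3 : w (3 : M) ≤ 1 := by
      have h4 := FinitePlace.norm_le_one M w.maximalIdeal (3 : 𝓞 M)
      rw [FinitePlace.norm_embedding_eq, map_ofNat] at h4
      exact h4
    exact le_antisymm h3 h2
  rw [finprod_congr h1, finprod_one, mul_one] at h
  have h5 : (1 : ℝ) < 3 ^ finrank ℚ M := one_lt_pow₀ (by norm_num) (finrank_pos).ne'
  exact h5.ne' h

section Local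

variable {M : Type*} [Field M] [CharZero M] {w : AbsoluteValue M ℝ}

theorem w_three_pos : 0 < w (3 : M) := w.pos (by norm_num)

omit [CharZero M] in
theorem w_lt_one_of_pow {a : M} {k : ℕ} (h3 : w 3 < 1) (h : w a ^ 3 ^ k = w 3) : w a < 1 := by
  by_contra hcon
  push Not at hcon
  exact absurd h3 (not_lt.2 (h ▸ one_le_pow₀ hcon))

theorem val_u_aux (hw : IsNonarchimedean w) (h3 : w 3 < 1) {α : M} {k : ℕ}
    (hα : w α ^ 3 ^ k = w 3) : w (α + α⁻¹)⁻¹ ^ 3 ^ k = w 3 := by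
  have h1 : w α < 1 := w_lt_one_of_pow h3 hα
  have hα0 : α ≠ 0 := by
    rintro rfl
    rw [map_zero, zero_pow (by positivity)] at hα
    exact w_three_pos.ne hα
  have hp : 0 < w α := w.pos hα0
  have h2 : 1 < w α⁻¹ := by
    rw [map_inv₀]
    exact (one_lt_inv₀ hp).2 h1
  have h4 : w (α + α⁻¹) = w α⁻¹ := by
    rw [ultra_add hw (fun _ _ => (h1.trans h2).ne), max_eq_right (h1.trans h2).le]
  rw [map_inv₀, h4, map_inv₀, inv_inv, hα]

theorem val_u (hw : IsNonarchimedean w) (h3 : w 3 < 1) {α : M} {k : ℕ}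
    (hα : w α ^ 3 ^ k = w 3 ∨ w α ^ 3 ^ k * w 3 = 1) : w (α + α⁻¹)⁻¹ ^ 3 ^ k = w 3 := by
  rcases hα with h | h
  · exact val_u_aux hw h3 h
  · have h1 : w α⁻¹ ^ 3 ^ k = w 3 := by
      rw [map_inv₀, inv_pow, eq_inv_of_mul_eq_one_left h, inv_inv]
    have h2 := val_u_aux hw h3 h1
    rwa [inv_inv, add_comm] at h2

theorem val_block (hw : IsNonarchimedean w) (h3 : w 3 < 1) {π s : M} {D m : ℕ} (hD : D % 9 = 1)
    (hπ : w π ^ 3 ^ m = w 3) (hs : s ^ 2 = D) :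
    w ((π - 1 + s) / (π - 1 - s)) ^ 3 ^ m = w 3 ∨
      w ((π - 1 + s) / (π - 1 - s)) ^ 3 ^ m * w 3 = 1 := by
  have hp1 : w π < 1 := w_lt_one_of_pow h3 hπ
  have h30 : 0 < w (3 : M) := w_three_pos
  have hp0 : 0 ≤ w π := apply_nonneg w _
  have hp3 : w 3 ≤ w π := by
    rw [← hπ]
    exact pow_le_of_le_one hp0 hp1.le (by positivity)
  have h2 : w (2 : M) = 1 := by
    have := w_natCast_eq_one (w := w) hw h3 (n := 2) (by norm_num)
    simpa using this
  have hnat : ∀ n : ℕ, w (n : M) ≤ 1 := by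
    intro k
    induction k with
    | zero => simp
    | succ k ih =>
      rw [Nat.cast_succ]
      exact (hw _ _).trans (max_le ih (by simp))
  -- `w (s - 1) * w (s + 1) ≤ w 3 ^ 2`
  have hprod : w (s - 1) * w (s + 1) ≤ w 3 ^ 2 := by
    obtain ⟨q, hq⟩ : ∃ q : ℕ, D = 9 * q + 1 := ⟨D / 9, by omega⟩
    have e : (s - 1) * (s + 1) = 3 ^ 2 * (q : M) := by
      have : (s - 1) * (s + 1) = s ^ 2 - 1 := by ring
      rw [this, hs, hq]
      push_cast
      ring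
    rw [← map_mul, e, map_mul, map_pow]
    exact mul_le_of_le_one_right (by positivity) (hnat q)
  have hsq : w 3 ^ 2 < w 3 := by nlinarith
  have hadd : ∀ a b : M, w a < w b → w (a + b) = w b := by
    intro a b hab
    rw [ultra_add hw (fun _ _ => hab.ne), max_eq_right hab.le]
  by_cases hc : w (s - 1) < 1
  · -- `w (s + 1) = 1`
    have e1 : w (s + 1) = 1 := by
      have : w ((s - 1) + 2) = w (2 : M) := hadd _ _ (by rw [h2]; exact hc)
      rw [h2] at this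
      rw [← this]
      congr 1
      ring
    rw [e1, mul_one] at hprod
    have hlt : w (s - 1) < w π := lt_of_le_of_lt hprod (hsq.trans_le hp3)
    left
    have e2 : w (π - 1 + s) = w π := by
      rw [← hadd _ _ hlt]
      congr 1
      ring
    have e3 : w (π - 1 - s) = 1 := by
      have h4 : w (π - (s - 1)) ≤ w π := by
        rw [sub_eq_add_neg]
        refine (hw _ _).trans (max_le le_rfl ?_)
        rw [w.map_neg]
        exact hlt.le
      have : w ((π - (s - 1)) + (-2)) = w (-2 : M) := hadd _ _ (by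
        rw [w.map_neg, h2]
        exact h4.trans_lt hp1)
      rw [w.map_neg, h2] at this
      rw [← this]
      congr 1
      ring
    rw [map_div₀, e2, e3, div_one, hπ]
  · push Not at hc
    have h5 : w (s + 1) ≤ w 3 ^ 2 := by
      refine le_trans ?_ hprod
      exact le_mul_of_one_le_left (apply_nonneg w _) hc
    have hlt : w (s + 1) < w π := lt_of_le_of_lt h5 (hsq.trans_le hp3)
    right
    have e3 : w (π - 1 - s) = w π := by
      have : w (-(s + 1) + π) = w π := hadd _ _ (by rw [w.map_neg]; exact hlt)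
      rw [← this]
      congr 1
      ring
    have e2 : w (π - 1 + s) = 1 := by
      have h4 : w (π + (s + 1)) ≤ w π := (hw _ _).trans (max_le le_rfl hlt.le)
      have : w ((π + (s + 1)) + (-2)) = w (-2 : M) := hadd _ _ (by
        rw [w.map_neg, h2]
        exact h4.trans_lt hp1)
      rw [w.map_neg, h2] at this
      rw [← this]
      congr 1
      ring
    rw [map_div₀, e2, e3, one_div, inv_pow, hπ]
    exact inv_mul_cancel₀ h30.ne'

end Local

theorem ram_unif {k : ℕ} {α : Ω} (hα : Ram k α) (hint : IsIntegral ℚ α) :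
    Unif k (α + α⁻¹)⁻¹ := by
  obtain ⟨M₀, hfd, h⟩ := hα
  have hfd' : FiniteDimensional ℚ ℚ⟮α⟯ := adjoin.finiteDimensional hint
  refine ⟨M₀ ⊔ ℚ⟮α⟯, inferInstance, ?_⟩
  intro M hM w hw h3 ht
  have hαM : α ∈ M := hM ((le_sup_right : ℚ⟮α⟯ ≤ M₀ ⊔ ℚ⟮α⟯) (mem_adjoin_simple_self ℚ α))
  exact val_u hw h3 (h M (le_sup_left.trans hM) w hw h3 hαM)

/-- Opening a new block. -/
theorem Unif.ram {m : ℕ} {π s : Ω} {D : ℕ} (hπ : Unif m π) (hD : D % 9 = 1) (hs : s ^ 2 = D)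
    (hint : IsIntegral ℚ π) : Ram m ((π - 1 + s) / (π - 1 - s)) := by
  obtain ⟨M₀, hfd, h⟩ := hπ
  have hfd' : FiniteDimensional ℚ ℚ⟮π⟯ := adjoin.finiteDimensional hint
  have hints : IsIntegral ℚ s := by
    refine IsIntegral.of_pow (n := 2) (by norm_num) ?_
    rw [hs]
    exact_mod_cast (isIntegral_algebraMap (R := ℚ) (A := Ω) (x := (D : ℚ)))
  have hfd'' : FiniteDimensional ℚ ℚ⟮s⟯ := adjoin.finiteDimensional hints
  refine ⟨(M₀ ⊔ ℚ⟮π⟯) ⊔ ℚ⟮s⟯, inferInstance, ?_⟩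
  intro M hM w hw h3 ht
  have hπM : π ∈ M := hM ((le_sup_left : M₀ ⊔ ℚ⟮π⟯ ≤ _)
    ((le_sup_right : ℚ⟮π⟯ ≤ M₀ ⊔ ℚ⟮π⟯) (mem_adjoin_simple_self ℚ π)))
  have hsM : s ∈ M := hM ((le_sup_right : ℚ⟮s⟯ ≤ _) (mem_adjoin_simple_self ℚ s))
  have h4 := h M ((le_sup_left.trans le_sup_left).trans hM) w hw h3 hπM
  exact val_block (s := (⟨s, hsM⟩ : M)) hw h3 hD h4 (Subtype.ext (by simpa using hs))

theorem Unif.rank {k : ℕ} {π : Ω} (hπ : Unif k π) (hint : IsIntegral ℚ π) :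
    3 ^ k ≤ finrank ℚ ℚ⟮π⟯ := by
  obtain ⟨M₀, hfd, h⟩ := hπ
  have hfd' : FiniteDimensional ℚ ℚ⟮π⟯ := adjoin.finiteDimensional hint
  let M := M₀ ⊔ ℚ⟮π⟯
  have hMfd : FiniteDimensional ℚ M := inferInstance
  have : NumberField M := {}
  obtain ⟨w, hw, h3⟩ := exists_place M
  have hπM : π ∈ M := (le_sup_right : ℚ⟮π⟯ ≤ M₀ ⊔ ℚ⟮π⟯) (mem_adjoin_simple_self ℚ π)
  have h4 := h M le_sup_left w hw h3 hπM
  have h5 := linearIndependent_pow hw h3 (g := (⟨π, hπM⟩ : M)) (A := 3 ^ k) (j := 1)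
    (by rw [h4, zpow_one]) isCoprime_one_right
  have h6 : LinearIndependent ℚ fun i : Fin (3 ^ k) => (AdjoinSimple.gen ℚ π) ^ (i : ℕ) := by
    refine LinearIndependent.of_comp (inclusion (le_sup_right : ℚ⟮π⟯ ≤ M)).toLinearMap ?_
    exact h5
  have := h6.fintype_card_le_finrank
  rwa [Fintype.card_fin] at this

theorem finrank_cubic_le {F : IntermediateField ℚ Ω} [FiniteDimensional ℚ F] {u c : Ω} (hc : c ∈ F)
    (hu : u ^ 3 - 3 * u = c) (hint : IsIntegral ℚ u) :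
    finrank ℚ ↥(F ⊔ ℚ⟮u⟯) ≤ 3 * finrank ℚ F := by
  have h1 : IntermediateField.restrictScalars ℚ F⟮u⟯ = F ⊔ ℚ⟮u⟯ :=
    restrictScalars_adjoin_eq_sup ℚ F {u}
  have h2 : finrank ℚ ↥(F ⊔ ℚ⟮u⟯) = finrank ℚ F⟮u⟯ := by rw [← h1]; rfl
  rw [h2, ← finrank_mul_finrank ℚ F F⟮u⟯, mul_comm]
  have hintF : IsIntegral F u := hint.tower_top
  rw [adjoin.finrank hintF]
  refine Nat.mul_le_mul_right _ ?_
  let p : Polynomial F := Polynomial.X ^ 3 - Polynomial.C 3 * Polynomial.X - Polynomial.C ⟨c, hc⟩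
  have hp : p.natDegree = 3 := by
    simp only [p]
    compute_degree!
  have hp0 : p ≠ 0 := by
    intro h
    rw [h] at hp
    simp at hp
  have hpu : Polynomial.aeval u p = 0 := by
    have h3 : algebraMap F Ω (3 : F) = 3 := map_ofNat _ _
    have h4 : algebraMap F Ω ⟨c, hc⟩ = c := rfl
    simp only [p, map_sub, map_mul, map_pow, Polynomial.aeval_X, Polynomial.aeval_C, h3, h4]
    rw [hu, sub_self]
  have := Polynomial.natDegree_le_of_dvd (minpoly.dvd F u hpu) hp0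
  rwa [hp] at this

theorem isIntegral_of_isAlgebraic [Algebra.IsAlgebraic ℚ Ω] (x : Ω) : IsIntegral ℚ x :=
  Algebra.IsIntegral.isIntegral x

theorem ram_ne_zero {k : ℕ} {α : Ω} (hα : Ram k α) (hint : IsIntegral ℚ α) : α ≠ 0 := by
  obtain ⟨M₀, hfd, h⟩ := hα
  have hfd' : FiniteDimensional ℚ ℚ⟮α⟯ := adjoin.finiteDimensional hint
  let M := M₀ ⊔ ℚ⟮α⟯
  have hMfd : FiniteDimensional ℚ M := inferInstance
  have : NumberField M := {}
  obtain ⟨w, hw, h3⟩ := exists_place M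
  have hαM : α ∈ M := (le_sup_right : ℚ⟮α⟯ ≤ M₀ ⊔ ℚ⟮α⟯) (mem_adjoin_simple_self ℚ α)
  have h4 := h M le_sup_left w hw h3 hαM
  rintro rfl
  have h5 : (⟨0, hαM⟩ : M) = 0 := rfl
  rw [h5, map_zero, zero_pow (by positivity)] at h4
  rcases h4 with h4 | h4
  · exact w_three_pos.ne h4
  · simp at h4

theorem ram_pow_ne_one {k : ℕ} {α : Ω} (hα : Ram k α) (hint : IsIntegral ℚ α) {n : ℕ}
    (hn : n ≠ 0) : α ^ n ≠ 1 := by
  obtain ⟨M₀, hfd, h⟩ := hα
  have hfd' : FiniteDimensional ℚ ℚ⟮α⟯ := adjoin.finiteDimensional hint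
  let M := M₀ ⊔ ℚ⟮α⟯
  have hMfd : FiniteDimensional ℚ M := inferInstance
  have : NumberField M := {}
  obtain ⟨w, hw, h3⟩ := exists_place M
  have hαM : α ∈ M := (le_sup_right : ℚ⟮α⟯ ≤ M₀ ⊔ ℚ⟮α⟯) (mem_adjoin_simple_self ℚ α)
  have h4 := h M le_sup_left w hw h3 hαM
  intro h1
  have h5 : (⟨α, hαM⟩ : M) ^ n = 1 := Subtype.ext (by simpa using h1)
  have h6 : w ⟨α, hαM⟩ = 1 := by
    have : w ⟨α, hαM⟩ ^ n = 1 := by rw [← map_pow, h5, map_one]
    exact (pow_eq_one_iff_of_nonneg (apply_nonneg w _) hn).1 this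
  rw [h6, one_pow] at h4
  rcases h4 with h4 | h4
  · exact h3.ne' h4
  · rw [one_mul] at h4
    exact h3.ne h4

/-- One step of the tower. -/
theorem tower_step {F : IntermediateField ℚ Ω} {m : ℕ} (hF : finrank ℚ F = 3 ^ m) {α : Ω}
    (hα : Ram (m + 1) α) (hint : IsIntegral ℚ α) (htF : α ^ 3 + (α ^ 3)⁻¹ ∈ F) :
    finrank ℚ ↥(F ⊔ ℚ⟮α + α⁻¹⟯) = 3 ^ (m + 1) := by
  have hfd : FiniteDimensional ℚ F := FiniteDimensional.of_finrank_pos (by rw [hF]; positivity)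
  have hα0 : α ≠ 0 := ram_ne_zero hα hint
  have hintu : IsIntegral ℚ (α + α⁻¹) := hint.add hint.inv
  have hfdu : FiniteDimensional ℚ ℚ⟮α + α⁻¹⟯ := adjoin.finiteDimensional hintu
  have h1 := finrank_cubic_le (u := α + α⁻¹) htF (by field_simp; ring) hintu
  have h2 := (ram_unif hα hint).rank hintu.inv
  have h3 : ℚ⟮(α + α⁻¹)⁻¹⟯ ≤ F ⊔ ℚ⟮α + α⁻¹⟯ := by
    rw [adjoin_simple_le_iff]
    exact inv_mem ((le_sup_right : ℚ⟮α + α⁻¹⟯ ≤ _) (mem_adjoin_simple_self ℚ _))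
  have h4 := finrank_le_of_le_right h3
  rw [hF] at h1
  rw [pow_succ'] at *
  omega

end Pool.Agent.helper26.Bog
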